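import Mathlib
import Pool.Agent.N646.RW.Box

/-!
# Every box of shifts contains a proportion of patterns of clusters of primes isolated by record gaps

Let `f(X) = log X (log₂ X)² log₄ X / (log₃ X)²`, the order of the largest gaps between consecutive primes that are
known (starting files) to occur up to `X`.

Theorem. There is an absolute constant `ρ > 0` such that for all `k ≥ 1`, all squarefree `q`, all `b` coprime to `q`
and all `ε > 0` there are `M, K ≥ 1` and `c > 0` with: for every multiple `N ≥ 1` of `M` there is `L` such that in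
EVERY box `{z + N t : t ∈ [0, T)^k}`, `T ≥ L`, `z ∈ (M ℤ)^k` (anywhere in `ℤ^k`), for at least the proportion
`(k + 1) ρ^k - ε` of the vectors `h` the following holds for arbitrarily large `X`: at least `X^(6/7)` integers
`n ≡ b (mod q)` of `(X, 4X]` are such that `n, n + h_1, …, n + h_k` are `k + 1` different primes and the interval
`[n - c f(X), n + c f(X)]` contains at most `K` primes (so that, since `h` is fixed, the cluster is separated by
gaps longer than `c f(X) / (K + 1)` from the primes outside a neighbourhood with at most `K` primes).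

So the vectors which are patterns of primes in record windows have a positive lower density in all boxes, with a
density depending only on `k` and uniformly in the position; for `k = 1` every interval of length `L(ε)` contains
the proportion `2ρ - ε` of multiples `h` of `N` which are the difference of two primes in such windows.

Method. (1) The coloured Maynard-Tao theorem for arbitrary admissible tuples in the record windows
(`Pool.Agent.TH101.RG.tuple_multiples`, starting files; the record sieve of helper256, helper410, helper312,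
helper362 and others) in the form of `Pool.Agent.N688.FB.rec_hit` (helper688). (2) Hypergraph containers
(`Pool.Agent.N646.AC.wclique`): every large finite set `V` of multiples of `M` contains `A` with `|A| ≥ (ρ' - ε)|V|`
almost all of whose `(k+1)`-tuples are clusters for arbitrarily large `X` (pigeonhole over the finitely many
subsets). (3) The box theorem `Pool.Agent.N646.BX.box_main` (helpers 646, 195, 624, 348, 519, 833, 134, 498): a tree
of windows whose boxes of differences are worst possible, equidistribution in cells, Kneser's theorem in windows.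
-/

set_option autoImplicit false

namespace Pool.Agent.Results.MP_69be96_nt.AllBoxesInRecordWindows

open Filter Finset

/-- The record scale `f(x) = log x (log₂ x)² log₄ x / (log₃ x)²` (iterated natural logarithms). -/
noncomputable def f (x : ℝ) : ℝ :=
  Real.log x * (Real.log (Real.log x)) ^ 2 * Real.log (Real.log (Real.log (Real.log x))) /
    (Real.log (Real.log (Real.log x))) ^ 2

/-- The number of the `n ≡ b (mod q)` in `(X, 4X]` such that `n` and all the `n + h_i` are prime and at most `K`
primes are at distance at most `G` from `n`. -/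
noncomputable def clusters {k : ℕ} (G X : ℝ) (K q b : ℕ) (h : Fin k → ℤ) : ℕ :=
  {n : ℕ | X < n ∧ (n : ℝ) ≤ 4 * X ∧ n ≡ b [MOD q] ∧ n.Prime ∧ (∀ i, ((n : ℤ) + h i).toNat.Prime) ∧
    {p : ℕ | p.Prime ∧ |(p : ℝ) - n| ≤ G}.ncard ≤ K}.ncard

/-- The integers `0, h_1, …, h_k` are distinct and for arbitrarily large `X` the vector `h` is the pattern of at
least `X^(6/7)` clusters of `(X, 4X]` with at most `K` primes at distance at most `c f(X)`. -/
def Recurrent {k : ℕ} (c : ℝ) (K q b : ℕ) (h : Fin k → ℤ) : Prop :=
  Function.Injective h ∧ (∀ i, h i ≠ 0) ∧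
    ∃ᶠ X : ℝ in atTop, X ^ (6 / 7 : ℝ) ≤ (clusters (c * f X) X K q b h : ℝ)

open Classical in
/-- The number of the recurrent vectors `z + N t`, `t ∈ [0, T)^k`. -/
noncomputable def recurrentInBox {k : ℕ} (c : ℝ) (K q b : ℕ) (z : Fin k → ℤ) (N T : ℕ) : ℕ :=
  ((Fintype.piFinset (fun _ : Fin k => Ico 0 (T : ℤ))).filter
    (fun t => Recurrent c K q b (fun j => z j + N * t j))).card

/-- **Patterns of clusters in record windows in every box.** -/
theorem result : ∃ ρ : ℝ, 0 < ρ ∧ ∀ k q b : ℕ, 1 ≤ k → Squarefree q → b.Coprime q → ∀ ε : ℝ, 0 < ε →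
    ∃ (M K : ℕ) (c : ℝ), 1 ≤ M ∧ 0 < c ∧ ∀ N : ℕ, 1 ≤ N → M ∣ N → ∃ L : ℕ, ∀ T : ℕ, L ≤ T →
      ∀ z : Fin k → ℤ, (∀ j, (M : ℤ) ∣ z j) →
        ((k + 1) * ρ ^ k - ε) * (T : ℝ) ^ k ≤ (recurrentInBox c K q b z N T : ℝ) := by
  classical
  obtain ⟨ρ, hρ, h⟩ := Pool.Agent.N646.RW.rec_boxes
  refine ⟨ρ, hρ, fun k q b hk hq hb ε hε => ?_⟩
  obtain ⟨M, K, c, hM, hc, h⟩ := h k q b hk hq hb ε hε
  refine ⟨M, K, c, hM, hc, fun N hN hMN => ?_⟩
  obtain ⟨L, h⟩ := h N hN hMN
  refine ⟨L, fun T hT z hz => (h T hT z hz).trans ?_⟩
  rw [Nat.cast_le]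
  unfold Pool.Agent.N646.BX.cnt recurrentInBox
  apply card_le_card
  intro t ht
  rw [mem_filter] at ht ⊢
  refine ⟨ht.1, ?_⟩
  have h1 := ht.2
  unfold Pool.Agent.N646.RW.RecGood at h1
  obtain ⟨X₀, h2, -⟩ := h1.exists
  refine ⟨?_, ?_, h1.mono fun X hX => hX.2.trans ?_⟩
  · intro j j' hjj
    have h3 : Pool.Agent.N646.AC.nv (fun j => z j + N * t j) j.succ =
        Pool.Agent.N646.AC.nv (fun j => z j + N * t j) j'.succ := by
      unfold Pool.Agent.N646.AC.nv
      rw [Fin.cons_succ, Fin.cons_succ]
      exact hjj
    exact Fin.succ_injective _ (h2 h3)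
  · intro j hj
    have h3 : Pool.Agent.N646.AC.nv (fun j => z j + N * t j) j.succ =
        Pool.Agent.N646.AC.nv (fun j => z j + N * t j) 0 := by
      unfold Pool.Agent.N646.AC.nv
      rw [Fin.cons_succ, Fin.cons_zero]
      exact hj
    exact Fin.succ_ne_zero _ (h2 h3)
  · rw [Nat.cast_le]
    unfold Pool.Agent.N688.FB.clu clusters
    apply Set.ncard_le_ncard
    · rintro n ⟨h6, h7, h8, h9, h10⟩
      have h11 := h9 0 ⟨0, by
        unfold Pool.Agent.N646.AC.nv
        rw [Fin.cons_zero]⟩
      refine ⟨h6, h7, h8, ?_, fun j => ?_, h10⟩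
      · rwa [mul_zero, add_zero, Int.toNat_natCast] at h11
      · have h12 := h9 (z j + N * t j) ⟨j.succ, by
          unfold Pool.Agent.N646.AC.nv
          rw [Fin.cons_succ]⟩
        rwa [Nat.cast_one, one_mul] at h12
    · apply (Set.finite_Iic ⌊4 * X⌋₊).subset
      intro n hn
      exact Set.mem_Iic.2 (Nat.le_floor hn.2.1)

end Pool.Agent.Results.MP_69be96_nt.AllBoxesInRecordWindows
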