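import Pool.Agent.N286.DE.Final

set_option autoImplicit false

/-! # Discrete exponentials and discrete logarithms in record gaps between primes

Let `A` be an invertible matrix of size `k` over the field with `p` elements, `T ≥ 1` with
`A ^ T = 1` such that no power `A ^ x` with `0 < x < T` has the eigenvalue `1`, let `v ≠ 0` and `w`
be vectors and let `n x = A ^ x v + w`, the coordinates taken as least non-negative residues.  In
every box in which the complete exponential sums are small enough to make the points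
`(x, n x)` equidistributed there are many `x` such that `x` and all coordinates of `n x` lie in
gaps between primes of the record size for the modulus `p`.

For `k = 1` these are the geometric progressions `v g ^ x + w` modulo `p` with `g` of order `T`; for
`v = 1`, `w = 0` the pairs are `(x, g ^ x mod p)`, an integer and its discrete exponential.  For
`k ≥ 2` they contain the linear recurrences modulo `p` and the linear congruential generators. -/

namespace Pool.Agent.Results.MP_69be96_nt.DiscreteExponentials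

open Matrix

/-- The record size of gaps between consecutive primes near `x`, up to a constant. -/
noncomputable def recordGap (x : ℝ) : ℝ :=
  Real.log x * (Real.log (Real.log x)) ^ 2 * Real.log (Real.log (Real.log (Real.log x))) /
    (Real.log (Real.log (Real.log x))) ^ 2

/-- The integer `m` is a proper multiple of a prime number that is at most `z`; in particular `m`
is composite. -/
def SmallFactor (z : ℝ) (m : ℤ) : Prop :=
  ∃ q : ℕ, q.Prime ∧ (q : ℝ) ≤ z ∧ (q : ℤ) ∣ m ∧ (q : ℤ) < m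

theorem result (k : ℕ) (_hk : 1 ≤ k) (δ : ℝ) (hδ : 0 < δ) (hδ1 : δ ≤ 1) :
    ∃ κ : ℝ, 0 < κ ∧ ∃ p₀ : ℕ, ∀ p : ℕ, p.Prime → p₀ ≤ p →
    ∀ (A : Matrix (Fin k) (Fin k) (ZMod p)) (T : ℕ), 1 ≤ T → A ^ T = 1 →
    (∀ x : ℕ, 0 < x → x < T → IsUnit (A ^ x - 1)) →
    ∀ v w : Fin k → ZMod p, v ≠ 0 →
    ∀ B : ℝ, (B = (p : ℝ) ^ ((k : ℝ) / 2) ∨
      (k = 1 ∧ B = (p : ℝ) ^ (1 / 8 : ℝ) * (T : ℝ) ^ (2 / 3 : ℝ))) →
    ∀ (a L : ℕ) (c D : Fin k → ℕ), L ≤ T → (∀ i, c i + D i ≤ p) →
    (p : ℝ) ^ δ ≤ L → (∀ i, (p : ℝ) ^ δ ≤ D i) →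
    B * (p : ℝ) ^ ((k : ℝ) + δ) ≤ L * ∏ i, (D i : ℝ) →
    (L * ∏ i, (D i : ℝ)) * (p : ℝ) ^ (-((k : ℝ) + δ)) ≤
      Set.ncard {x : ℕ | a ≤ x ∧ x < a + L ∧
        (∀ i, c i ≤ ((A ^ x *ᵥ v + w) i).val ∧ ((A ^ x *ᵥ v + w) i).val < c i + D i) ∧
        ∀ m : ℤ, (|(m : ℝ) - x| ≤ κ * recordGap p ∨
            ∃ i, |(m : ℝ) - (((A ^ x *ᵥ v + w) i).val : ℕ)| ≤ κ * recordGap p) →
          SmallFactor ((p : ℝ) ^ δ) m} :=
  Pool.Agent.N286.DE.final k δ hδ hδ1

end Pool.Agent.Results.MP_69be96_nt.DiscreteExponentials
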