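import Pool.Agent.N647.BU.Prim
import Pool.Agent.N647.FG.CritCount

set_option autoImplicit false

/-! # Primitive roots modulo primes in record prime gaps -/

namespace Pool.Agent.Results.MP_69be96_nt.PrimitiveRootsInRecordGaps

open Finset Filter
open Pool.Agent.N647.FG (AP AP_one AP_card Far crit_count)
open Pool.Agent.N647.BU (bur_AP prim_count SX phi_mul_card)
open Pool.Agent.W147.PS (ev_pow)

/-- the record scale for gaps between primes -/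
noncomputable def f (x : ℝ) : ℝ :=
  Real.log x * (Real.log (Real.log x)) ^ 2 * Real.log (Real.log (Real.log (Real.log x))) /
    (Real.log (Real.log (Real.log x))) ^ 2

/-- Let `δ > 0`. There are `κ > 0` and `p₀` such that for all primes `p ≥ p₀` and all intervals
`(M, M + L]` with `p ^ (1/4 + δ) ≤ L ≤ p`: at least `L p ^ (-δ)` of the integers `x` of the interval
are primitive roots modulo `p` and have the property that every integer at distance at most `κ f(p)`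
from `x` has a prime factor at most `p ^ δ`. -/
theorem result (δ : ℝ) (hδ : 0 < δ) :
    ∃ κ : ℝ, 0 < κ ∧ ∃ p₀ : ℕ, ∀ p : ℕ, p.Prime → p₀ ≤ p → ∀ (M : ℤ) (L : ℕ),
      (p : ℝ) ^ (1 / 4 + δ) ≤ L → L ≤ p →
      (L : ℝ) * (p : ℝ) ^ (-δ) ≤
        ({x : ℤ | (M < x ∧ x ≤ M + L) ∧ orderOf (x : ZMod p) = p - 1 ∧
          ∀ m : ℤ, |(m : ℝ) - x| ≤ κ * f p →
            ∃ l : ℕ, l.Prime ∧ (l : ℝ) ≤ (p : ℝ) ^ δ ∧ (l : ℤ) ∣ m}.ncard : ℝ) := by
  classical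
  obtain ⟨δ', hδ', hbur⟩ := bur_AP δ hδ
  set δ₂ : ℝ := min (δ / 4) (min (δ' / 4) (1 / 10)) with hδ₂
  have hδ₂0 : 0 < δ₂ := lt_min (by positivity) (lt_min (by positivity) (by norm_num))
  have a1 : δ₂ ≤ δ / 4 := min_le_left _ _
  have a2 : δ₂ ≤ δ' / 4 := (min_le_right _ _).trans (min_le_left _ _)
  have a3 : δ₂ ≤ 1 / 10 := (min_le_right _ _).trans (min_le_right _ _)
  set ε₀ : ℝ := min (δ / 4) (δ' / 8) with hε₀
  have hε₀0 : 0 < ε₀ := lt_min (by positivity) (by positivity)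
  have b1 : ε₀ ≤ δ / 4 := min_le_left _ _
  have b2 : ε₀ ≤ δ' / 8 := min_le_right _ _
  obtain ⟨C, hC, hdiv⟩ := Pool.Agent.H510R2.divisor_bound ε₀ hε₀0
  obtain ⟨κ, hκ, hcrit⟩ := crit_count 1 le_rfl δ₂ hδ₂0 (by linarith)
  refine ⟨κ, hκ, ?_⟩
  have tc : Tendsto (fun q : ℕ => (q : ℝ)) atTop atTop := tendsto_natCast_atTop_atTop
  have hev := ((((hbur.and (tc.eventually hcrit)).and (tc.eventually
    (ev_pow δ₂ (1 / 4) 24 (by linarith)))).and (tc.eventually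
    (ev_pow (2 * ε₀ + δ₂) δ' (8 * C ^ 2) (by linarith)))).and (tc.eventually
    (ev_pow (ε₀ + δ₂) δ (2 * C) (by linarith)))).and (eventually_ge_atTop 3)
  obtain ⟨p₀, hp₀⟩ := eventually_atTop.mp hev
  refine ⟨p₀, ?_⟩
  intro p hp hpp M L hL hLp
  have : Fact p.Prime := ⟨hp⟩
  obtain ⟨⟨⟨⟨⟨g1, g2⟩, g3⟩, g4⟩, g5⟩, g6⟩ := hp₀ p hpp
  have hp1 : (1 : ℝ) < p := by exact_mod_cast hp.one_lt
  have hp0 : (0 : ℝ) < p := by linarith
  have hmono : ∀ x y : ℝ, x ≤ y → (p : ℝ) ^ x ≤ (p : ℝ) ^ y := fun x y h =>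
    Real.rpow_le_rpow_of_exponent_le hp1.le h
  have hL0 : (0 : ℝ) < L := (Real.rpow_pos_of_pos hp0 _).trans_le hL
  set τ : ℝ := ((p - 1).divisors.card : ℝ) with hτ
  have hτ1 : 1 ≤ τ := by
    have h1 : (1 : ℕ) ∈ (p - 1).divisors := Nat.one_mem_divisors.mpr (by omega)
    have h2 : 0 < (p - 1).divisors.card := card_pos.mpr ⟨1, h1⟩
    rw [hτ]
    exact_mod_cast h2
  have hτ2 : τ ≤ C * (p : ℝ) ^ ε₀ := by
    refine (hdiv (p - 1) (by omega)).trans ?_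
    apply mul_le_mul_of_nonneg_left _ hC.le
    apply Real.rpow_le_rpow (Nat.cast_nonneg _) _ hε₀0.le
    exact_mod_cast Nat.sub_le p 1
  set c₀ : ℝ := ((p - 1).totient : ℝ) / (p.totient : ℝ) with hc₀
  have htot : (p.totient : ℝ) = ((p - 1 : ℕ) : ℝ) := by rw [Nat.totient_prime hp]
  have hN0 : (0 : ℝ) < ((p - 1 : ℕ) : ℝ) := by
    have : 0 < p - 1 := by omega
    exact_mod_cast this
  have hc₀1 : c₀ ≤ 1 := by
    rw [hc₀, htot, div_le_one hN0]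
    exact_mod_cast Nat.totient_le _
  have hc₀2 : 1 / τ ≤ c₀ := by
    rw [hc₀, htot, div_le_div_iff₀ (by linarith) hN0, one_mul]
    have := phi_mul_card (p - 1) (by omega)
    rw [hτ]
    exact_mod_cast this
  have hc₀0 : 0 < c₀ := lt_of_lt_of_le (by positivity) hc₀2
  have hcτ : 1 ≤ c₀ * τ := by
    rwa [div_le_iff₀ (by linarith)] at hc₀2
  set E : ℝ := (p : ℝ) ^ (-δ') * L with hE
  have hE0 : 0 ≤ E := by positivity
  -- the count in a progression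
  have key : ∀ q : ℕ, 1 ≤ q → (q : ℝ) ≤ (p : ℝ) ^ δ' → ∀ ρ : ℤ,
      |(((AP M L q ρ).filter (fun x : ℤ => orderOf (x : ZMod p) = p - 1)).card : ℝ) -
        c₀ * (L / q)| ≤ 3 * c₀ + τ * E := by
    intro q hq hqp ρ
    have h1 := prim_count (AP M L q ρ) E hE0 (fun χ hχ => g1 χ hχ M L q hq hqp ρ hL)
    set U : ℝ := (((AP M L q ρ).filter (fun x : ℤ => (x : ZMod p) ≠ 0)).card : ℝ) with hU
    have h2 := AP_card M L q hq ρ
    have h3 : |U - (AP M L q ρ).card| ≤ 2 := by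
      have e1 := card_filter_add_card_filter_not (s := AP M L q ρ) (fun x : ℤ => (x : ZMod p) = 0)
      have e2 : ((((AP M L q ρ).filter (fun x : ℤ => (x : ZMod p) = 0)).card : ℕ) : ℝ) + U =
          (AP M L q ρ).card := by
        rw [hU]
        exact_mod_cast e1
      have e3 : ((AP M L q ρ).filter (fun x : ℤ => (x : ZMod p) = 0)).card ≤ (AP M L p 0).card := by
        apply card_le_card
        intro x hx
        rw [mem_filter] at hx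
        unfold AP at hx ⊢
        rw [mem_filter] at hx ⊢
        refine ⟨hx.1.1, ?_⟩
        rw [sub_zero, ← ZMod.intCast_zmod_eq_zero_iff_dvd]
        exact hx.2
      have e4 := (abs_le.mp (AP_card M L p hp.one_le 0)).2
      have e5 : (L : ℝ) / p ≤ 1 := by
        rw [div_le_one hp0]
        exact_mod_cast hLp
      have e6 : ((((AP M L q ρ).filter (fun x : ℤ => (x : ZMod p) = 0)).card : ℕ) : ℝ) ≤
          (AP M L p 0).card := by exact_mod_cast e3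
      rw [abs_le]
      constructor
      · linarith
      · have : (0 : ℝ) ≤ ((((AP M L q ρ).filter (fun x : ℤ => (x : ZMod p) = 0)).card : ℕ) : ℝ) :=
          Nat.cast_nonneg _
        linarith
    have h4 : |c₀ * U - c₀ * (L / q)| ≤ 3 * c₀ := by
      rw [← mul_sub, abs_mul, abs_of_pos hc₀0, mul_comm]
      apply mul_le_mul_of_nonneg_right _ hc₀0.le
      have := abs_add_le (U - (AP M L q ρ).card) ((AP M L q ρ).card - (L : ℝ) / q)
      rw [sub_add_sub_cancel] at this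
      linarith
    have h5 := abs_add_le ((((AP M L q ρ).filter (fun x : ℤ => orderOf (x : ZMod p) = p - 1)).card : ℝ) -
      c₀ * U) (c₀ * U - c₀ * (L / q))
    rw [sub_add_sub_cancel] at h5
    linarith
  -- the family
  set s : Finset ℤ := (Ioc M (M + L)).filter (fun x : ℤ => orderOf (x : ZMod p) = p - 1) with hs
  have hpδ' : (1 : ℝ) ≤ (p : ℝ) ^ δ' := Real.one_le_rpow hp1.le hδ'.le
  have k1 := key 1 le_rfl (by simpa using hpδ') 0
  rw [AP_one, ← hs, Nat.cast_one, div_one] at k1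
  have hpδ₂ : 0 < (p : ℝ) ^ (-δ₂) := Real.rpow_pos_of_pos hp0 _
  -- the error is small
  have herr : 3 * c₀ + τ * E ≤ c₀ * L * (p : ℝ) ^ (-δ₂) / 4 := by
    have e0 : (p : ℝ) ^ δ₂ * (p : ℝ) ^ (-δ₂) = 1 := by
      rw [← Real.rpow_add hp0]; simp
    have e1 : 24 ≤ L * (p : ℝ) ^ (-δ₂) := by
      have h1 : 24 * (p : ℝ) ^ δ₂ ≤ L := g3.trans ((hmono _ _ (by linarith)).trans hL)
      calc (24 : ℝ) = 24 * ((p : ℝ) ^ δ₂ * (p : ℝ) ^ (-δ₂)) := by rw [e0, mul_one]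
        _ = (24 * (p : ℝ) ^ δ₂) * (p : ℝ) ^ (-δ₂) := by ring
        _ ≤ L * (p : ℝ) ^ (-δ₂) := mul_le_mul_of_nonneg_right h1 hpδ₂.le
    have e2 : 3 * c₀ ≤ c₀ * L * (p : ℝ) ^ (-δ₂) / 8 := by
      have := mul_le_mul_of_nonneg_left e1 hc₀0.le
      linarith
    have e3 : τ * E ≤ c₀ * L * (p : ℝ) ^ (-δ₂) / 8 := by
      have h1 : 8 * τ ^ 2 ≤ (p : ℝ) ^ δ' * (p : ℝ) ^ (-δ₂) := by
        calc 8 * τ ^ 2 ≤ 8 * (C * (p : ℝ) ^ ε₀) ^ 2 := by
              have := pow_le_pow_left₀ (by linarith) hτ2 2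
              linarith
          _ = 8 * C ^ 2 * (p : ℝ) ^ (2 * ε₀ + δ₂) * (p : ℝ) ^ (-δ₂) := by
              rw [mul_assoc (8 * C ^ 2), ← Real.rpow_add hp0, add_neg_cancel_right, mul_pow,
                ← Real.rpow_natCast ((p : ℝ) ^ ε₀), ← Real.rpow_mul hp0.le]
              rw [show ε₀ * ((2 : ℕ) : ℝ) = 2 * ε₀ by push_cast; ring]
              ring
          _ ≤ (p : ℝ) ^ δ' * (p : ℝ) ^ (-δ₂) := mul_le_mul_of_nonneg_right g4 hpδ₂.le
      have h2 : (p : ℝ) ^ (-δ') * (p : ℝ) ^ δ' = 1 := by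
        rw [← Real.rpow_add hp0]; simp
      have h3 : 8 * τ ^ 2 * (p : ℝ) ^ (-δ') ≤ (p : ℝ) ^ (-δ₂) := by
        calc 8 * τ ^ 2 * (p : ℝ) ^ (-δ') ≤ (p : ℝ) ^ δ' * (p : ℝ) ^ (-δ₂) * (p : ℝ) ^ (-δ') :=
              mul_le_mul_of_nonneg_right h1 (Real.rpow_pos_of_pos hp0 _).le
          _ = ((p : ℝ) ^ (-δ') * (p : ℝ) ^ δ') * (p : ℝ) ^ (-δ₂) := by ring
          _ = _ := by rw [h2, one_mul]
      have hpδ'n : 0 < (p : ℝ) ^ (-δ') := Real.rpow_pos_of_pos hp0 _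
      calc τ * E = (1 * τ) * ((p : ℝ) ^ (-δ') * L) := by rw [hE, one_mul]
        _ ≤ ((c₀ * τ) * τ) * ((p : ℝ) ^ (-δ') * L) := by gcongr
        _ = c₀ * L * (8 * τ ^ 2 * (p : ℝ) ^ (-δ')) / 8 := by ring
        _ ≤ c₀ * L * (p : ℝ) ^ (-δ₂) / 8 := by gcongr
    linarith
  have hsmall : (p : ℝ) ^ (-δ₂) ≤ 1 :=
    Real.rpow_le_one_of_one_le_of_nonpos hp1.le (by linarith)
  have hscard : c₀ * L / 2 ≤ (s.card : ℝ) := by
    have h1 := (abs_le.mp k1).1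
    have h2 : c₀ * L * (p : ℝ) ^ (-δ₂) / 4 ≤ c₀ * L * 1 / 4 := by gcongr
    have h3 : 0 < c₀ * L := by positivity
    linarith
  have hmain := g2 ℤ s (fun x _ => x) (by
    intro q hq hqp ρ
    have hqR : (1 : ℝ) ≤ q := by exact_mod_cast hq
    have hq0 : (0 : ℝ) < q := by linarith
    have hqp' : (q : ℝ) ≤ (p : ℝ) ^ δ' := by
      refine hqp.trans (hmono _ _ ?_)
      have : δ₂ / (4 * ((1 : ℕ) : ℝ) + 2) ≤ δ₂ := div_le_self hδ₂0.le (by norm_num)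
      linarith
    have k2 := key q hq hqp' (ρ 0)
    have e1 : s.filter (fun i => ∀ j : Fin 1, (q : ℤ) ∣ i - ρ j) =
        (AP M L q (ρ 0)).filter (fun x : ℤ => orderOf (x : ZMod p) = p - 1) := by
      ext x
      unfold AP
      simp only [hs, mem_filter, Fin.forall_fin_one]
      tauto
    rw [e1, pow_one]
    have k3 : |c₀ * (L / q) - s.card / (q : ℝ)| ≤ 3 * c₀ + τ * E := by
      have : c₀ * (L / q) - s.card / (q : ℝ) = (c₀ * L - s.card) / q := by ring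
      rw [this, abs_div, abs_of_pos hq0, abs_sub_comm]
      exact (div_le_self (abs_nonneg _) hqR).trans k1
    have k4 := abs_add_le ((((AP M L q (ρ 0)).filter
      (fun x : ℤ => orderOf (x : ZMod p) = p - 1)).card : ℝ) - c₀ * (L / q))
      (c₀ * (L / q) - s.card / (q : ℝ))
    rw [sub_add_sub_cancel] at k4
    have k5 : c₀ * L / 2 * (p : ℝ) ^ (-δ₂) ≤ s.card * (p : ℝ) ^ (-δ₂) :=
      mul_le_mul_of_nonneg_right hscard hpδ₂.le
    linarith)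
  set Y := {x : ℤ | (M < x ∧ x ≤ M + L) ∧ orderOf (x : ZMod p) = p - 1 ∧
          ∀ m : ℤ, |(m : ℝ) - x| ≤ κ * f p →
            ∃ l : ℕ, l.Prime ∧ (l : ℝ) ≤ (p : ℝ) ^ δ ∧ (l : ℤ) ∣ m} with hY
  have hYfin : Y.Finite := by
    apply Set.Finite.subset (Ioc M (M + L)).finite_toSet
    intro x hx
    rw [mem_coe, mem_Ioc]
    exact hx.1
  have hle : (s.filter (fun x => ∀ _j : Fin 1, Far x (κ * Pool.Agent.W147.PS.ff p)
      ((p : ℝ) ^ δ₂))).card ≤ Y.ncard := by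
    rw [← Set.ncard_coe_finset]
    apply Set.ncard_le_ncard _ hYfin
    intro x hx
    rw [mem_coe, mem_filter, hs, mem_filter, mem_Ioc] at hx
    refine ⟨hx.1.1, hx.1.2, ?_⟩
    intro m hm
    obtain ⟨l, hl, hl2, hl3⟩ := hx.2 0 m hm
    exact ⟨l, hl, hl2.trans (hmono _ _ (by linarith)), hl3⟩
  have hle' : ((s.filter (fun x => ∀ _j : Fin 1, Far x (κ * Pool.Agent.W147.PS.ff p)
      ((p : ℝ) ^ δ₂))).card : ℝ) ≤ (Y.ncard : ℝ) := by exact_mod_cast hle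
  refine le_trans ?_ (hmain.trans hle')
  -- the final comparison
  have h1 : 2 * τ * (p : ℝ) ^ δ₂ ≤ (p : ℝ) ^ δ := by
    calc 2 * τ * (p : ℝ) ^ δ₂ ≤ 2 * (C * (p : ℝ) ^ ε₀) * (p : ℝ) ^ δ₂ := by gcongr
      _ = 2 * C * (p : ℝ) ^ (ε₀ + δ₂) := by rw [Real.rpow_add hp0]; ring
      _ ≤ _ := g5
  have h2 : (p : ℝ) ^ (-δ) * (2 * τ * (p : ℝ) ^ δ₂) ≤ 1 := by
    calc (p : ℝ) ^ (-δ) * (2 * τ * (p : ℝ) ^ δ₂) ≤ (p : ℝ) ^ (-δ) * (p : ℝ) ^ δ :=
          mul_le_mul_of_nonneg_left h1 (Real.rpow_pos_of_pos hp0 _).le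
      _ = 1 := by rw [← Real.rpow_add hp0]; simp
  have e0 : (p : ℝ) ^ δ₂ * (p : ℝ) ^ (-δ₂) = 1 := by
    rw [← Real.rpow_add hp0]; simp
  have hpδn : 0 < (p : ℝ) ^ (-δ) := Real.rpow_pos_of_pos hp0 _
  calc (L : ℝ) * (p : ℝ) ^ (-δ) = L * (p : ℝ) ^ (-δ) * ((p : ℝ) ^ δ₂ * (p : ℝ) ^ (-δ₂)) := by
        rw [e0, mul_one]
    _ ≤ L * (p : ℝ) ^ (-δ) * ((p : ℝ) ^ δ₂ * (p : ℝ) ^ (-δ₂)) * (c₀ * τ) := by
        apply le_mul_of_one_le_right (by positivity) hcτ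
    _ = (c₀ * L / 2) * (p : ℝ) ^ (-δ₂) * ((p : ℝ) ^ (-δ) * (2 * τ * (p : ℝ) ^ δ₂)) := by ring
    _ ≤ (c₀ * L / 2) * (p : ℝ) ^ (-δ₂) * 1 := by gcongr
    _ ≤ s.card * (p : ℝ) ^ (-δ₂) * 1 := by gcongr
    _ = _ := by ring

end Pool.Agent.Results.MP_69be96_nt.PrimitiveRootsInRecordGaps
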