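import Pool.Agent.N825.FC.Pow

set_option autoImplicit false

/-!
# Record prime gaps at products, at cosets of small subgroups and at powers modulo primes

Write `f(x) = log x (log₂ x)² log₄ x / (log₃ x)²` for the record size of the prime-free intervals.  An
integer `n` is a centre modulo `p` if every integer within `κ f(p)` of `n` has a prime factor `≤ p ^ ε`;
so a centre in `(p ^ ε + κ f(p), p)` is in the middle of a record prime gap.

(0) General criterion.  Let `v_i`, `i ∈ s`, be a finite family of vectors modulo the prime `p` all of whose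
Fourier coefficients at nonzero frequencies are at most `|s| p ^ (-ε)`.  Then in every box with sides
`L ≥ p ^ (1 - δ)` all the coordinates of at least `|s| p ^ (-ε)` of the vectors are represented by centres.
(1) Let `A, B` be ANY sets of residues with `|A| |B| ≥ p ^ (1 + ε)` and `G_j, K_j` any functions.  For at least
`|A| |B| p ^ (-ε)` pairs all the numbers `a b ^ j + G_j(a) + K_j(b)`, `1 ≤ j ≤ r`, are represented by centres in
every box with sides `≥ p ^ (1 - δ)`: for example the geometric progressions `a b, a b², …, a b ^ r`.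
(2) Let `H` be a subgroup of the multiplicative group with `|H| ≥ p ^ (3/8 + ε)`.  Every coset of `H` contains
at least `|H| p ^ (-ε)` residues represented by centres in every interval of length `≥ p ^ (1 - δ)`.
(3) For every `g ≥ 2` and all but `C X ^ (3/4 + ε)` of the primes `p ≤ X` at least `p ^ (3/8)` of the powers
`g ^ n`, `n ≤ p`, have a least residue modulo `p` which is a centre.

Proof: completion of the sums over the representatives in progressions (library `H442R2.KF.Inc`) and the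
joint form `critJ` of the covering sieve (helper961); for (2) the fourth moment of the sums over `H` and the
Stepanov type lemma of Heath-Brown and Konyagin (library `H435R3.HBK`), which give
`|∑ e(x h / p)| ≤ 2 p ^ (1/8) |H| ^ (2/3)`.
-/

namespace Pool.Agent.Results.MP_69be96_nt.ProductsAndPowersModP

open Finset

/-- The record scale `f(x) = log x (log₂ x)² log₄ x / (log₃ x)²` (iterated natural logarithms). -/
noncomputable def f (x : ℝ) : ℝ :=
  Real.log x * (Real.log (Real.log x)) ^ 2 * Real.log (Real.log (Real.log (Real.log x))) /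
    (Real.log (Real.log (Real.log x))) ^ 2

/-- Every integer within `κ f(p)` of `n` has a prime factor at most `p ^ ε`. -/
def Centre (κ ε : ℝ) (p : ℕ) (n : ℤ) : Prop :=
  ∀ t : ℤ, |(t : ℝ) - n| ≤ κ * f p → ∃ l : ℕ, l.Prime ∧ (l : ℝ) ≤ (p : ℝ) ^ ε ∧ (l : ℤ) ∣ t

/-- For every box `∏ (M_j, M_j + L]` with `p ^ (1 - δ) ≤ L ≤ p` at least `|s| p ^ (-ε)` of the vectors
`v_i`, `i ∈ s`, modulo `p` are represented by vectors of centres in the box. -/
def ManyCentres (κ ε δ : ℝ) (p : ℕ) {ι : Type} {r : ℕ} (s : Finset ι) (v : ι → Fin r → ZMod p) :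
    Prop :=
  ∀ (M : Fin r → ℤ) (L : ℕ), (p : ℝ) ^ (1 - δ) ≤ L → L ≤ p →
    ∃ g ⊆ s, s.card * (p : ℝ) ^ (-ε) ≤ g.card ∧
      ∀ i ∈ g, ∀ j, ∃ n : ℤ, M j < n ∧ n ≤ M j + L ∧ (n : ZMod p) = v i j ∧ Centre κ ε p n

/-- At least `p ^ (3/8)` of the numbers `g ^ n mod p`, `1 ≤ n ≤ p`, are centres. -/
def ManyPowers (κ ε : ℝ) (g p : ℕ) : Prop :=
  ∃ N ⊆ Icc 1 p, (p : ℝ) ^ (3 / 8 : ℝ) ≤ N.card ∧ ∀ n ∈ N, Centre κ ε p ((g ^ n % p : ℕ) : ℤ)

/-- **Record prime gaps at products, cosets and powers modulo primes.** -/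
theorem result (ε : ℝ) (hε : 0 < ε) (hε1 : ε ≤ 1) :
    (∀ r : ℕ, 1 ≤ r → ∃ κ : ℝ, 0 < κ ∧ ∃ δ : ℝ, 0 < δ ∧ ∃ P₀ : ℝ,
      ∀ (p : ℕ) [Fact p.Prime], P₀ ≤ p →
      (∀ (ι : Type) (s : Finset ι) (v : ι → Fin r → ZMod p), s.Nonempty →
        (∀ h : Fin r → ZMod p, h ≠ 0 →
          ‖∑ i ∈ s, (ZMod.stdAddChar (∑ j, h j * v i j) : ℂ)‖ ≤ s.card * (p : ℝ) ^ (-ε)) →
        ManyCentres κ ε δ p s v)) ∧
    (∀ r : ℕ, 1 ≤ r → ∃ κ : ℝ, 0 < κ ∧ ∃ δ : ℝ, 0 < δ ∧ ∃ P₀ : ℝ,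
      ∀ (p : ℕ) [Fact p.Prime], P₀ ≤ p →
      (∀ A B : Finset (ZMod p), (p : ℝ) ^ (1 + ε) ≤ A.card * B.card →
        ∀ G K : Fin r → ZMod p → ZMod p, ManyCentres κ ε δ p (A ×ˢ B)
          (fun w j => w.1 * w.2 ^ ((j : ℕ) + 1) + G j w.1 + K j w.2))) ∧
    (∃ κ : ℝ, 0 < κ ∧ ∃ δ : ℝ, 0 < δ ∧ ∃ P₀ : ℝ,
      ∀ (p : ℕ) [Fact p.Prime], P₀ ≤ p →
      (∀ (H : Subgroup (ZMod p)ˣ) (s : Finset (ZMod p)ˣ), (∀ h, h ∈ s ↔ h ∈ H) →
        (p : ℝ) ^ (3 / 8 + ε) ≤ s.card → ∀ x : ZMod p, x ≠ 0 →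
        ManyCentres κ ε δ p s (fun h (_ : Fin 1) => x * (h : ZMod p)))) ∧
    (∃ κ : ℝ, 0 < κ ∧ ∀ g : ℕ, 2 ≤ g → ∃ C : ℝ, ∀ X : ℕ, 1 ≤ X → ∀ Q : Finset ℕ,
      (∀ p ∈ Q, p.Prime ∧ p ≤ X ∧ ¬ ManyPowers κ ε g p) →
      (Q.card : ℝ) ≤ C * (X : ℝ) ^ (3 / 4 + ε)) :=
  ⟨fun r hr => Pool.Agent.N825.FC.crit r hr ε hε hε1,
    fun r hr => Pool.Agent.N825.FC.products r hr ε hε hε1,
    Pool.Agent.N825.FC.cosets ε hε hε1, Pool.Agent.N825.FC.powers ε hε hε1⟩

end Pool.Agent.Results.MP_69be96_nt.ProductsAndPowersModP
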